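import Pool.Agent.LeoG.AlgStmts
import Pool.Agent.Helper59_LeoK.Phi
import Pool.Agent.Helper71_LeoK.Apx

/-!
Squad leog, module APL: an element which is a cube in all completions above 3 is close to 1 there,
up to a cube.
-/

set_option autoImplicit false

open NumberField IsDedekindDomain WithZero Module
open Pool.Agent.Helper85_Leo Pool.Agent.Leo3 Pool.Agent.LeoK Pool.Agent.Leo3.H93

namespace Pool.Agent.LeoG.H24

variable {K : Type} [Field K] [NumberField K]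

lemma lz (Q : HeightOneSpectrum (𝓞 K)) (x : K) (h : Q.valuation K x ≤ 1) :
    ∃ a b : 𝓞 K, b ∉ Q.asIdeal ∧ x * (b : K) = a := by
  obtain ⟨n, d, hnd⟩ := Q.exists_primeCompl_mul_eq_of_integer x h
  exact ⟨n, d, d.2, hnd⟩

lemma val_one (Q : HeightOneSpectrum (𝓞 K)) {b : 𝓞 K} (hb : b ∉ Q.asIdeal) :
    Q.valuation K (b : K) = 1 := Q.valuation_eq_one_iff_notMem.2 hb

/-- comparison of the valuation with the norm of `Om`. -/
lemma le_of_norm_le (Q : HeightOneSpectrum (𝓞 K)) (φ : K →+* Om)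
    (hφ : ∀ x : 𝓞 K, x ∈ Q.asIdeal ↔ ‖φ (x : K)‖ < 1) (z : K) (hz : ‖φ z‖ ≤ 1) :
    Q.valuation K z ≤ 1 := by
  by_contra hcon
  push Not at hcon
  have hz0 : z ≠ 0 := by
    rintro rfl
    rw [map_zero] at hcon
    exact absurd hcon (by simp)
  have h1 : Q.valuation K z⁻¹ < 1 := by
    rw [map_inv₀]
    exact inv_lt_one_of_one_lt₀ hcon
  obtain ⟨a, b, hb, hab⟩ := lz Q z⁻¹ h1.le
  have ha : a ∈ Q.asIdeal := by
    rw [← Q.valuation_lt_one_iff_mem (K := K)]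
    change Q.valuation K (a : K) < 1
    rw [← hab, map_mul, val_one Q hb, mul_one]
    exact h1
  have h2 := (hφ a).1 ha
  have h3 : ¬ ‖φ (b : K)‖ < 1 := fun h => hb ((hφ b).2 h)
  have h4 : (b : K) = z * a := by
    rw [← hab]
    field_simp
  apply h3
  rw [h4, map_mul, norm_mul]
  calc ‖φ z‖ * ‖φ (a : K)‖ ≤ 1 * ‖φ (a : K)‖ := mul_le_mul_of_nonneg_right hz (norm_nonneg _)
    _ < 1 := by rwa [one_mul]

/-- the other direction. -/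
lemma norm_le_of_le (Q : HeightOneSpectrum (𝓞 K)) (φ : K →+* Om)
    (hφ : ∀ x : 𝓞 K, x ∈ Q.asIdeal ↔ ‖φ (x : K)‖ < 1) (z : K) (hz : Q.valuation K z ≤ 1) :
    ‖φ z‖ ≤ 1 := by
  obtain ⟨a, b, hb, hab⟩ := lz Q z hz
  have h3 : ¬ ‖φ (b : K)‖ < 1 := fun h => hb ((hφ b).2 h)
  have h4 : ‖φ (b : K)‖ = 1 := le_antisymm (norm_embedding_le_one φ b) (not_lt.1 h3)
  have h5 : ‖φ z‖ * ‖φ (b : K)‖ = ‖φ (a : K)‖ := by rw [← norm_mul, ← map_mul, hab]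
  rw [h4, mul_one] at h5
  rw [h5]
  exact norm_embedding_le_one φ a

lemma val_le_val (Q : HeightOneSpectrum (𝓞 K)) (φ : K →+* Om)
    (hφ : ∀ x : 𝓞 K, x ∈ Q.asIdeal ↔ ‖φ (x : K)‖ < 1) (x y : K) (hy : y ≠ 0)
    (h : ‖φ x‖ ≤ ‖φ y‖) : Q.valuation K x ≤ Q.valuation K y := by
  have h1 : Q.valuation K (x / y) ≤ 1 := le_of_norm_le Q φ hφ _ (by
    rw [map_div₀, norm_div]
    exact div_le_one_of_le₀ h (norm_nonneg _))
  have h2 : Q.valuation K x = Q.valuation K (x / y) * Q.valuation K y := by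
    rw [← map_mul, div_mul_cancel₀ _ hy]
  rw [h2]
  calc Q.valuation K (x / y) * Q.valuation K y ≤ 1 * Q.valuation K y := by gcongr
    _ = Q.valuation K y := one_mul _

/-- high powers of the prime are small. -/
lemma small (Q : HeightOneSpectrum (𝓞 K)) (φ : K →+* Om)
    (hφ : ∀ x : 𝓞 K, x ∈ Q.asIdeal ↔ ‖φ (x : K)‖ < 1) (m : ℕ) :
    ∃ e : ℕ, ∀ y : 𝓞 K, y ∈ Q.asIdeal ^ e → ‖φ (y : K)‖ ≤ (3 : ℝ)⁻¹ ^ m := by
  have h3 : ((3 : 𝓞 K) ^ m) ≠ 0 := pow_ne_zero _ (by norm_num)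
  have h3K : ((3 : K) ^ m) ≠ 0 := pow_ne_zero _ (by norm_num)
  refine ⟨(Associates.mk Q.asIdeal).count (Associates.mk (Ideal.span {(3 : 𝓞 K) ^ m})).factors,
    fun y hy => ?_⟩
  have h1 := (Q.intValuation_le_pow_iff_mem y _).2 hy
  have h2 := Q.intValuation_if_neg h3
  rw [← h2] at h1
  have h4 : Q.valuation K (y : K) ≤ Q.valuation K ((3 : K) ^ m) := by
    have h5 : Q.valuation K (y : K) = Q.intValuation y := Q.valuation_of_algebraMap y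
    have h6 : Q.valuation K ((3 : K) ^ m) = Q.intValuation ((3 : 𝓞 K) ^ m) := by
      have h7 : (algebraMap (𝓞 K) K) ((3 : 𝓞 K) ^ m) = (3 : K) ^ m := by
        rw [map_pow, map_ofNat]
      have h8 : Q.valuation K (algebraMap (𝓞 K) K ((3 : 𝓞 K) ^ m)) = Q.intValuation (3 ^ m) :=
        Q.valuation_of_algebraMap (K := K) ((3 : 𝓞 K) ^ m)
      rw [h7] at h8
      exact h8
    rw [h5, h6]
    exact h1
  have h5 : Q.valuation K ((y : K) / 3 ^ m) ≤ 1 := by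
    rw [map_div₀]
    refine div_le_one_of_le₀ h4 zero_le
  have h6 := norm_le_of_le Q φ hφ _ h5
  rw [map_div₀, norm_div, map_pow, map_ofNat, norm_three_pow,
    div_le_one (by positivity)] at h6
  exact h6

omit [NumberField K] in
lemma inloc_inv {φ : K →+* Om} {t : Om} (h : InLoc φ t) : InLoc φ t⁻¹ := by
  intro ρ hρ
  rw [map_inv₀, h ρ hρ]

lemma exists_pow_le (a : ℝ) (ha : 0 < a) : ∃ n : ℕ, (3 : ℝ)⁻¹ ^ n ≤ a := by
  obtain ⟨n, hn⟩ := exists_pow_lt_of_lt_one ha (show (3 : ℝ)⁻¹ < 1 by norm_num)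
  exact ⟨n, hn.le⟩

/-- the local step. -/
lemma loc (φ : K →+* Om) (z : K) (hz : z ≠ 0) (hc : ∃ t : Om, InLoc φ t ∧ t ^ 3 = φ z) (N : ℕ) :
    ∃ (x : K) (n : ℕ), ∀ t : K, ‖φ (t - x)‖ ≤ (3 : ℝ)⁻¹ ^ n →
      ‖φ (z * t ^ 3 - 1)‖ ≤ ‖φ ((3 : K) ^ N)‖ := by
  obtain ⟨w, hw, hwz⟩ := hc
  have hφz : φ z ≠ 0 := (map_ne_zero φ).2 hz
  have hw0 : w ≠ 0 := by
    rintro rfl
    apply hφz
    rw [← hwz]
    norm_num
  have hu0 : 0 < ‖w⁻¹‖ := norm_pos_iff.2 (inv_ne_zero hw0)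
  obtain ⟨n, hn⟩ := exists_pow_le ((3 : ℝ)⁻¹ ^ N * ‖w⁻¹‖) (by positivity)
  obtain ⟨x, hx⟩ := Pool.Agent.LeoK.H71.apx K φ w⁻¹ (inloc_inv hw) n
  refine ⟨x, n, fun t ht => ?_⟩
  have h1 : ‖φ t - w⁻¹‖ ≤ (3 : ℝ)⁻¹ ^ n := by
    have h2 : φ t - w⁻¹ = φ (t - x) + (φ x - w⁻¹) := by rw [map_sub]; ring
    rw [h2]
    exact (IsUltrametricDist.norm_add_le_max _ _).trans (max_le ht hx)
  have hN1 : (3 : ℝ)⁻¹ ^ N ≤ 1 := pow_le_one₀ (by norm_num) (by norm_num)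
  have h2 : ‖φ t - w⁻¹‖ ≤ ‖w⁻¹‖ := h1.trans (hn.trans (mul_le_of_le_one_left hu0.le hN1))
  have h3 : ‖φ t‖ ≤ ‖w⁻¹‖ := by
    have h4 : φ t = (φ t - w⁻¹) + w⁻¹ := by ring
    rw [h4]
    exact (IsUltrametricDist.norm_add_le_max _ _).trans (max_le h2 le_rfl)
  have h4 : ‖(φ t) ^ 2 + φ t * w⁻¹ + w⁻¹ ^ 2‖ ≤ ‖w⁻¹‖ ^ 2 := by
    refine (IsUltrametricDist.norm_add_le_max _ _).trans (max_le ?_ (by rw [norm_pow]))
    refine (IsUltrametricDist.norm_add_le_max _ _).trans (max_le ?_ ?_)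
    · rw [norm_pow]
      exact pow_le_pow_left₀ (norm_nonneg _) h3 2
    · rw [norm_mul, pow_two]
      exact mul_le_mul_of_nonneg_right h3 (norm_nonneg _)
  have h5 : φ (z * t ^ 3 - 1) = w ^ 3 * ((φ t - w⁻¹) * ((φ t) ^ 2 + φ t * w⁻¹ + w⁻¹ ^ 2)) := by
    rw [map_sub, map_mul, map_pow, map_one, ← hwz]
    field_simp
    ring
  have hw3 : ‖w‖ = ‖w⁻¹‖⁻¹ := by rw [norm_inv, inv_inv]
  rw [h5, norm_mul, norm_mul, norm_pow, map_pow, map_ofNat, norm_three_pow, hw3]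
  have h6 : ‖φ t - w⁻¹‖ * ‖(φ t) ^ 2 + φ t * w⁻¹ + w⁻¹ ^ 2‖ ≤
      ((3 : ℝ)⁻¹ ^ N * ‖w⁻¹‖) * ‖w⁻¹‖ ^ 2 :=
    mul_le_mul (h1.trans hn) h4 (norm_nonneg _) (by positivity)
  calc ‖w⁻¹‖⁻¹ ^ 3 * (‖φ t - w⁻¹‖ * ‖(φ t) ^ 2 + φ t * w⁻¹ + w⁻¹ ^ 2‖)
      ≤ ‖w⁻¹‖⁻¹ ^ 3 * (((3 : ℝ)⁻¹ ^ N * ‖w⁻¹‖) * ‖w⁻¹‖ ^ 2) := by gcongr
    _ = (3 : ℝ)⁻¹ ^ N := by
        generalize ‖w⁻¹‖ = a at hu0
        field_simp

theorem apl : AplStmt := by
  classical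
  intro K _ _ z hz hloc N
  have key : ∃ t : K, ∀ P : HeightOneSpectrum (𝓞 K), (3 : 𝓞 K) ∈ P.asIdeal →
      P.valuation K (z * t ^ 3 - 1) ≤ P.valuation K ((3 : K) ^ (N + 1)) := by
    have hfin : {P : HeightOneSpectrum (𝓞 K) | (3 : 𝓞 K) ∈ P.asIdeal}.Finite := by
      have h3 : (Ideal.span {(3 : 𝓞 K)}) ≠ ⊥ := by
        rw [Ne, Ideal.span_singleton_eq_bot]
        norm_num
      refine (Ideal.finite_factors h3).subset fun P hP => ?_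
      exact (Ideal.dvd_iff_le).2 ((Ideal.span_singleton_le_iff_mem _).2 hP)
    have hphi : ∀ P : {P : HeightOneSpectrum (𝓞 K) // (3 : 𝓞 K) ∈ P.asIdeal},
        ∃ φ : K →+* Om, ∀ x : 𝓞 K, x ∈ P.1.asIdeal ↔ ‖φ (x : K)‖ < 1 := fun P =>
      Pool.Agent.LeoK.H59.phi K P.1.asIdeal P.2
    choose φ hφ using hphi
    have hl := fun P : {P : HeightOneSpectrum (𝓞 K) // (3 : 𝓞 K) ∈ P.asIdeal} =>
      loc (φ P) z hz (hloc (φ P)) (N + 1)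
    choose x n hxn using hl
    have : Fintype {P : HeightOneSpectrum (𝓞 K) // (3 : 𝓞 K) ∈ P.asIdeal} := hfin.fintype
    obtain ⟨d, hd⟩ := IsLocalization.exist_integer_multiples (nonZeroDivisors (𝓞 K))
      Finset.univ x
    have hd0 : ((d : 𝓞 K) : K) ≠ 0 := by
      simp
    have hX : ∀ P, ∃ X : 𝓞 K, (X : K) = ((d : 𝓞 K) : K) * x P := by
      intro P
      obtain ⟨X, hX⟩ := hd P (Finset.mem_univ _)
      refine ⟨X, ?_⟩
      exact hX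
    choose X hX using hX
    have hm : ∀ P, ∃ m : ℕ, (3 : ℝ)⁻¹ ^ m ≤ (3 : ℝ)⁻¹ ^ (n P) * ‖φ P ((d : 𝓞 K) : K)‖ := by
      intro P
      refine exists_pow_le _ ?_
      have : 0 < ‖φ P ((d : 𝓞 K) : K)‖ := norm_pos_iff.2 ((map_ne_zero _).2 hd0)
      positivity
    choose m hm using hm
    have he := fun P => small P.1 (φ P) (hφ P) (m P)
    choose e he using he
    obtain ⟨y, hy⟩ := IsDedekindDomain.exists_forall_sub_mem_ideal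
      (s := (Finset.univ : Finset {P : HeightOneSpectrum (𝓞 K) // (3 : 𝓞 K) ∈ P.asIdeal}))
      (fun P => P.1.asIdeal) e (fun P _ => P.1.prime)
      (fun P _ Q _ hPQ h => hPQ (Subtype.ext (HeightOneSpectrum.ext h)))
      (fun P => X P.1)
    refine ⟨(y : K) / ((d : 𝓞 K) : K), fun P hP => ?_⟩
    refine val_le_val P (φ ⟨P, hP⟩) (hφ ⟨P, hP⟩) _ _ (pow_ne_zero _ (by norm_num)) ?_
    refine hxn ⟨P, hP⟩ _ ?_
    have h1 := he ⟨P, hP⟩ _ (hy ⟨P, hP⟩ (Finset.mem_univ _))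
    have h2 : (y : K) / ((d : 𝓞 K) : K) - x ⟨P, hP⟩ =
        ((y - X ⟨P, hP⟩ : 𝓞 K) : K) / ((d : 𝓞 K) : K) := by
      have h3 : ((y - X ⟨P, hP⟩ : 𝓞 K) : K) = (y : K) - ((d : 𝓞 K) : K) * x ⟨P, hP⟩ := by
        rw [← hX ⟨P, hP⟩]
        rfl
      rw [h3]
      field_simp
    rw [h2, map_div₀, norm_div]
    have h4 : 0 < ‖φ ⟨P, hP⟩ ((d : 𝓞 K) : K)‖ := norm_pos_iff.2 ((map_ne_zero _).2 hd0)
    rw [div_le_iff₀ h4]
    exact h1.trans (hm ⟨P, hP⟩)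
  obtain ⟨t, ht⟩ := key
  have hval3 : ∀ P : HeightOneSpectrum (𝓞 K), (3 : 𝓞 K) ∈ P.asIdeal → P.valuation K (3 : K) < 1 := by
    intro P hP
    have h := (P.valuation_lt_one_iff_mem (K := K) (3 : 𝓞 K)).2 hP
    have h2 : P.valuation K (algebraMap (𝓞 K) K 3) = P.valuation K (3 : K) := by
      rw [map_ofNat (algebraMap (𝓞 K) K) 3]
    exact h2 ▸ h
  by_cases ht0 : t = 0
  · refine ⟨1, one_ne_zero, fun P hP => ?_⟩
    exfalso
    have h1 := ht P hP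
    have h2 := hval3 P hP
    rw [ht0] at h1
    norm_num at h1
    have h3 : (P.valuation K (3 : K)) ^ (N + 1) < 1 := pow_lt_one₀ zero_le h2 (by omega)
    exact absurd h1 (not_le.2 h3)
  · refine ⟨t, ht0, fun P hP => (ht P hP).trans ?_⟩
    rw [map_pow, map_pow, pow_succ]
    exact mul_le_of_le_one_right zero_le (hval3 P hP).le

end Pool.Agent.LeoG.H24
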